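import Pool.Agent.RHO.Stmts3

/-!
# MP_ca8ef3_an, stage 2: row GCO (small sets of edges with boundary two vertices are paths)
-/

set_option autoImplicit false

namespace Pool.Agent.RHO.H33c

open Finset

namespace Gco33

variable {V E : Type} [DecidableEq V] [DecidableEq E] {α β : E → V}

/-- The incidence of an edge and a vertex. -/
def inc (α β : E → V) (e : E) (x : V) : ZMod 2 :=
  (if α e = x then 1 else 0) + (if β e = x then 1 else 0)

theorem bdr_eq (Z : Finset E) (x : V) : bdr α β Z x = ∑ e ∈ Z, inc α β e x := rfl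

theorem add_self (a : ZMod 2) : a + a = 0 := CharTwo.add_self_eq_zero a

theorem bdr_insert {Z : Finset E} {e : E} (h : e ∉ Z) (x : V) :
    bdr α β (insert e Z) x = inc α β e x + bdr α β Z x := by
  rw [bdr_eq, bdr_eq, Finset.sum_insert h]

theorem bdr_erase {Z : Finset E} {e : E} (h : e ∈ Z) (x : V) :
    bdr α β (Z.erase e) x = inc α β e x + bdr α β Z x := by
  have h1 := bdr_insert (α := α) (β := β) (Finset.notMem_erase e Z) x
  rw [Finset.insert_erase h] at h1
  rw [h1, ← add_assoc, add_self, zero_add]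

theorem bdr_symmDiff (Z Z' : Finset E) (x : V) :
    bdr α β (symmDiff Z Z') x = bdr α β Z x + bdr α β Z' x := by
  have h1 : bdr α β Z x = bdr α β (Z \ Z') x + bdr α β (Z ∩ Z') x := by
    rw [bdr_eq, bdr_eq, bdr_eq, ← Finset.sum_union (Finset.disjoint_sdiff_inter Z Z'),
      Finset.sdiff_union_inter]
  have h2 : bdr α β Z' x = bdr α β (Z' \ Z) x + bdr α β (Z ∩ Z') x := by
    rw [bdr_eq, bdr_eq, bdr_eq, Finset.inter_comm,
      ← Finset.sum_union (Finset.disjoint_sdiff_inter Z' Z), Finset.sdiff_union_inter]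
  have h3 : bdr α β (symmDiff Z Z') x = bdr α β (Z \ Z') x + bdr α β (Z' \ Z) x := by
    have : symmDiff Z Z' = (Z \ Z') ∪ (Z' \ Z) := rfl
    rw [this, bdr_eq, bdr_eq, bdr_eq, Finset.sum_union]
    exact disjoint_sdiff_sdiff
  rw [h1, h2, h3]
  have := add_self (bdr α β (Z ∩ Z') x)
  linear_combination -this

/-- The edge `e` has the ends `a` and `b`. -/
def Ends (α β : E → V) (e : E) (a b : V) : Prop := (α e = a ∧ β e = b) ∨ (α e = b ∧ β e = a)

theorem inc_of_ends {e : E} {a b : V} (h : Ends α β e a b) (x : V) :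
    inc α β e x = (if x = a then 1 else 0) + (if x = b then 1 else 0) := by
  unfold inc
  rcases h with ⟨h1, h2⟩ | ⟨h1, h2⟩
  · rw [h1, h2]
    simp only [eq_comm]
  · rw [h1, h2, add_comm]
    simp only [eq_comm]

theorem exists_ends {e : E} {a : V} (h : α e = a ∨ β e = a) : ∃ b, Ends α β e a b := by
  rcases h with h | h
  · exact ⟨β e, Or.inl ⟨h, rfl⟩⟩
  · exact ⟨α e, Or.inr ⟨rfl, h⟩⟩

theorem mem_of_bdr_ne {Z : Finset E} {v : V} (h : bdr α β Z v ≠ 0) :
    ∃ e ∈ Z, α e = v ∨ β e = v := by
  rw [bdr_eq] at h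
  obtain ⟨e, he, h1⟩ := Finset.exists_ne_zero_of_sum_ne_zero h
  refine ⟨e, he, ?_⟩
  by_contra hcon
  push Not at hcon
  exact h1 (by simp [inc, hcon.1, hcon.2])

theorem conn {T : ℕ} (gir : ∀ Z : Finset E, Z.card ≤ T → (∀ v, bdr α β Z v = 0) → Z = ∅) :
    ∀ (n : ℕ) (Y : Finset E), Y.card = n → n ≤ T → ∀ v w : V,
      (∀ x, bdr α β Y x = (if x = v then 1 else 0) + (if x = w then 1 else 0)) →
      ∀ f ∈ Y, ∀ x, (α f = x ∨ β f = x) → ∃ Y' ⊆ Y,
        ∀ y, bdr α β Y' y = (if y = v then 1 else 0) + (if y = x then 1 else 0) := by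
  intro n
  induction n with
  | zero =>
    intro Y hY _ v w _ f hf
    rw [Finset.card_eq_zero] at hY
    rw [hY] at hf
    exact absurd hf (Finset.notMem_empty _)
  | succ n ih =>
    intro Y hY hn v w hb f hf x hx
    by_cases hvw : v = w
    · exfalso
      have h1 : Y = ∅ := gir Y (hY ▸ hn) (fun y => by rw [hb y, hvw, add_self])
      rw [h1] at hf
      exact absurd hf (Finset.notMem_empty _)
    · have h1 : bdr α β Y v ≠ 0 := by
        rw [hb v]
        simp [hvw]
      obtain ⟨e, he, hev⟩ := mem_of_bdr_ne h1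
      obtain ⟨v₁, hends⟩ := exists_ends hev
      by_cases hxv : x = v
      · refine ⟨∅, Finset.empty_subset _, fun y => ?_⟩
        rw [hxv, add_self]
        rfl
      by_cases hxv1 : x = v₁
      · refine ⟨{e}, Finset.singleton_subset_iff.2 he, fun y => ?_⟩
        rw [bdr_eq, Finset.sum_singleton, inc_of_ends hends, hxv1]
      have hfe : f ≠ e := by
        rintro rfl
        rcases hends with ⟨h2, h3⟩ | ⟨h2, h3⟩ <;> rcases hx with h4 | h4
        · exact hxv (h4.symm.trans h2)
        · exact hxv1 (h4.symm.trans h3)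
        · exact hxv1 (h4.symm.trans h2)
        · exact hxv (h4.symm.trans h3)
      have hcard : (Y.erase e).card = n := by
        rw [Finset.card_erase_of_mem he, hY]
        rfl
      have hbe : ∀ y, bdr α β (Y.erase e) y =
          (if y = v₁ then 1 else 0) + (if y = w then 1 else 0) := by
        intro y
        rw [bdr_erase he, inc_of_ends hends, hb y]
        have := add_self (if y = v then (1 : ZMod 2) else 0)
        linear_combination this
      obtain ⟨Y'', hsub, hY''⟩ := ih (Y.erase e) hcard (by omega) v₁ w hbe f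
        (Finset.mem_erase.2 ⟨hfe, hf⟩) x hx
      have heY : e ∉ Y'' := fun h => (Finset.notMem_erase e Y) (hsub h)
      refine ⟨insert e Y'', ?_, fun y => ?_⟩
      · rw [Finset.insert_subset_iff]
        exact ⟨he, hsub.trans (Finset.erase_subset _ _)⟩
      · rw [bdr_insert heY, inc_of_ends hends, hY'' y]
        have := add_self (if y = v₁ then (1 : ZMod 2) else 0)
        linear_combination this

end Gco33

open Gco33 in
theorem gco : GCOStmt := by
  intro V E _ _ α β T hαβ gir
  have first : ∀ (Z : Finset E) (v w : V) (e e' : E), Z.card ≤ T →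
      (∀ x, bdr α β Z x = (if x = v then 1 else 0) + (if x = w then 1 else 0)) →
      e ∈ Z → e' ∈ Z → (α e = v ∨ β e = v) → (α e' = v ∨ β e' = v) → e = e' := by
    intro Z v w e e' hZ hb he he' hv hv'
    by_contra hne
    obtain ⟨v₁, hends⟩ := exists_ends hv
    have hbe : ∀ y, bdr α β (Z.erase e) y =
        (if y = v₁ then 1 else 0) + (if y = w then 1 else 0) := by
      intro y
      rw [bdr_erase he, inc_of_ends hends, hb y]
      have := add_self (if y = v then (1 : ZMod 2) else 0)
      linear_combination this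
    obtain ⟨Y', hsub, hY'⟩ := conn gir (Z.erase e).card (Z.erase e) rfl
      ((Finset.card_le_card (Finset.erase_subset _ _)).trans hZ) v₁ w hbe e'
      (Finset.mem_erase.2 ⟨fun h => hne h.symm, he'⟩) v hv'
    have heY : e ∉ Y' := fun h => (Finset.notMem_erase e Z) (hsub h)
    have hsub2 : insert e Y' ⊆ Z := by
      rw [Finset.insert_subset_iff]
      exact ⟨he, hsub.trans (Finset.erase_subset _ _)⟩
    have h0 := gir (insert e Y') ((Finset.card_le_card hsub2).trans hZ) (fun y => by
      rw [bdr_insert heY, inc_of_ends hends, hY' y]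
      have h1 := add_self (if y = v₁ then (1 : ZMod 2) else 0)
      have h2 := add_self (if y = v then (1 : ZMod 2) else 0)
      linear_combination h1 + h2)
    exact absurd h0 (Finset.insert_ne_empty _ _)
  refine ⟨first, ?_⟩
  intro Z Z' v w w' e hcard hb hb' he hev he'
  rw [Finset.disjoint_left]
  intro f hf hf'
  -- an end of `f` which is not `v`
  obtain ⟨x, hx, hxv⟩ : ∃ x, (α f = x ∨ β f = x) ∧ x ≠ v := by
    by_cases h : α f = v
    · exact ⟨β f, Or.inr rfl, fun h2 => hαβ f (h.trans h2.symm)⟩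
    · exact ⟨α f, Or.inl rfl, h⟩
  obtain ⟨Y, hY, hbY⟩ := conn gir Z.card Z rfl (by omega) v w hb f hf x hx
  obtain ⟨Y', hY', hbY'⟩ := conn gir Z'.card Z' rfl (by omega) v w' hb' f hf' x hx
  have hsd : symmDiff Y Y' = ∅ := by
    refine gir _ ?_ (fun y => ?_)
    · have h1 : (symmDiff Y Y').card ≤ Y.card + Y'.card := by
        have : symmDiff Y Y' ⊆ Y ∪ Y' := by
          intro a ha
          rw [Finset.mem_symmDiff] at ha
          rw [Finset.mem_union]
          tauto
        exact (Finset.card_le_card this).trans (Finset.card_union_le _ _)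
      have h2 := Finset.card_le_card hY
      have h3 := Finset.card_le_card hY'
      omega
    · rw [bdr_symmDiff, hbY, hbY', add_self]
  have hYY : Y = Y' := by
    have : symmDiff Y Y' = ⊥ := hsd
    exact symmDiff_eq_bot.1 this
  have h1 : bdr α β Y v ≠ 0 := by
    rw [hbY v]
    simp [hxv.symm]
  obtain ⟨e₁, he₁, hv₁⟩ := mem_of_bdr_ne h1
  have h2 : e₁ = e := first Z v w e₁ e (by omega) hb (hY he₁) he hv₁ hev
  rw [h2, hYY] at he₁
  exact he' (hY' he₁)

end Pool.Agent.RHO.H33c
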