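import Pool.Agent.RHO.Stmts3

/-!
# MP_ca8ef3_an, stage 2: row KSY (kernel system from the data)
-/

set_option autoImplicit false

namespace Pool.Agent.RHO.H33c

open Finset

namespace Ksy33

variable {X Ω V E : Type} [Fintype Ω] [DecidableEq V] [DecidableEq E]
  {D t T : ℕ} {r : ℝ} (P : PSys X Ω V E D t T r)

/-- `x` is near `u`. -/
def near (u x : X) : Prop := ∃ Z : Finset E, Z.card ≤ t ∧ P.rep u x Z

/-- `x` is near `u`, on the side of the label `e`. -/
def side (u : X) (e : Fin D) (x : X) : Prop :=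
  ∃ Z : Finset E, Z.card ≤ t ∧ P.rep u x Z ∧ P.lab (P.vx u) e ∈ Z

open Classical in
/-- The distance. -/
noncomputable def dd (u x : X) : ℕ := if h : near P u x then h.choose.card else 0

variable {P}

theorem dd_eq (hT : 2 * t + 2 ≤ T) {u x : X} {Z : Finset E} (h1 : Z.card ≤ t)
    (h2 : P.rep u x Z) : dd P u x = Z.card := by
  have h : near P u x := ⟨Z, h1, h2⟩
  unfold dd
  rw [dif_pos h]
  have h3 := h.choose_spec
  rw [P.rep_uniq u x _ _ h3.2 h2 (by omega)]

theorem card_symmDiff_le (Z Z' : Finset E) : (symmDiff Z Z').card ≤ Z.card + Z'.card := by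
  have : symmDiff Z Z' ⊆ Z ∪ Z' := by
    intro a ha
    rw [Finset.mem_symmDiff] at ha
    rw [Finset.mem_union]
    tauto
  exact (Finset.card_le_card this).trans (Finset.card_union_le _ _)

theorem symmDiff_singleton_mem {a : E} {Z : Finset E} (h : a ∈ Z) :
    symmDiff {a} Z = Z.erase a := by
  ext b
  rw [Finset.mem_symmDiff, Finset.mem_singleton, Finset.mem_erase]
  constructor
  · rintro (⟨rfl, h2⟩ | ⟨h1, h2⟩)
    · exact absurd h h2
    · exact ⟨h2, h1⟩
  · rintro ⟨h1, h2⟩
    exact Or.inr ⟨h2, h1⟩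

theorem symmDiff_singleton_notMem {a : E} {Z : Finset E} (h : a ∉ Z) :
    symmDiff {a} Z = insert a Z := by
  ext b
  rw [Finset.mem_symmDiff, Finset.mem_singleton, Finset.mem_insert]
  constructor
  · rintro (⟨rfl, _⟩ | ⟨h1, _⟩)
    · exact Or.inl rfl
    · exact Or.inr h1
  · rintro (rfl | h1)
    · exact Or.inl ⟨rfl, h⟩
    · refine Or.inr ⟨h1, ?_⟩
      rintro rfl
      exact h h1

theorem rep_nb_left {u x : X} {Z : Finset E} (e : Fin D) (h : P.rep u x Z) :
    P.rep (P.nb u e) x (symmDiff {P.lab (P.vx u) e} Z) :=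
  P.rep_trans _ u _ _ _ (P.rep_symm _ _ _ (P.rep_nb u e)) h

theorem rep_of_nb {u x : X} {Z : Finset E} (e : Fin D) (h : P.rep (P.nb u e) x Z) :
    P.rep u x (symmDiff {P.lab (P.vx u) e} Z) :=
  P.rep_trans _ (P.nb u e) _ _ _ (P.rep_nb u e) h

end Ksy33

open Ksy33 in
theorem ksy (gco : GCOStmt) : KSYStmt := by
  intro X Ω V E _ _ _ D g t T r κ P hr0 hr1 hg hgt hT hκ
  obtain ⟨g1, g2⟩ := gco V E P.α P.β T P.hαβ P.gir
  have hle : ∀ {m n : ℕ}, m ≤ n → r ^ n ≤ r ^ m := fun h => pow_le_pow_of_le_one hr0.le hr1.le h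
  have hκt : r ^ t ≤ κ := (hle (Nat.sub_le t g)).trans hκ
  have hκ0 : 0 ≤ κ := (pow_pos hr0 _).le.trans hκ
  have hfar : ∀ x y, ¬ near P x y → P.K x y < r ^ t := by
    intro x y h
    by_contra hcon
    exact h (P.K_rep x y (not_lt.1 hcon))
  have hlt : ∀ n : ℕ, 0 < r ^ n := fun n => pow_pos hr0 n
  refine ⟨{
    σ := P.σ
    K := P.K
    nb := P.nb
    side := side P
    dd := dd P
    base := P.base
    abs_σ := P.abs_σ
    avg := P.avg
    dd_pos := ?_
    K_side := ?_
    K_nb := ?_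
    K_nb' := ?_
    side_unique := ?_
    side_nb := ?_
    dd_nb := ?_
    prod := ?_ }⟩
  · rintro u e x ⟨Z, h1, h2, h3⟩
    rw [dd_eq hT h1 h2]
    exact Finset.card_pos.2 ⟨_, h3⟩
  · rintro u e x ⟨Z, h1, h2, h3⟩
    rw [dd_eq hT h1 h2]
    exact P.rep_K _ _ _ h2 (by omega)
  · rintro u e x ⟨Z, h1, h2, h3⟩
    rw [dd_eq hT h1 h2]
    have h4 := rep_nb_left e h2
    rw [symmDiff_singleton_mem h3] at h4
    have h5 : (Z.erase (P.lab (P.vx u) e)).card = Z.card - 1 := Finset.card_erase_of_mem h3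
    rw [P.rep_K _ _ _ h4 (by omega), h5]
  · intro u e x hns
    by_cases hn : near P u x
    · obtain ⟨Z, h1, h2⟩ := hn
      have h3 : P.lab (P.vx u) e ∉ Z := fun h => hns ⟨Z, h1, h2, h⟩
      have h4 := rep_nb_left e h2
      rw [symmDiff_singleton_notMem h3] at h4
      have h5 : (insert (P.lab (P.vx u) e) Z).card = Z.card + 1 :=
        Finset.card_insert_of_notMem h3
      rw [P.rep_K _ _ _ h4 (by omega), P.rep_K _ _ _ h2 (by omega), h5, pow_succ, mul_comm r,
        sub_self, abs_zero]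
      exact hκ0
    · have hu := hfar u x hn
      have hu0 := P.K_nonneg u x
      have hru : r * P.K u x ≤ r ^ t := by
        calc r * P.K u x ≤ 1 * P.K u x := by gcongr
          _ = P.K u x := one_mul _
          _ ≤ r ^ t := hu.le
      have hru0 : 0 ≤ r * P.K u x := mul_nonneg hr0.le hu0
      have hub : P.K (P.nb u e) x ≤ r ^ t := by
        by_contra hcon
        push Not at hcon
        obtain ⟨Z', h1, h2⟩ := P.K_rep _ _ hcon.le
        have h3 := rep_of_nb e h2
        have h4 : ¬ (symmDiff {P.lab (P.vx u) e} Z').card ≤ t := fun h => hn ⟨_, h, h3⟩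
        have h5 := card_symmDiff_le {P.lab (P.vx u) e} Z'
        rw [Finset.card_singleton] at h5
        have h6 : t ≤ Z'.card := by omega
        rw [P.rep_K _ _ _ h2 (by omega)] at hcon
        exact absurd (hle h6) (not_le.2 hcon)
      have hnb0 := P.K_nonneg (P.nb u e) x
      rw [abs_le]
      constructor <;> linarith
  · rintro u x e e' ⟨Z, h1, h2, h3⟩ ⟨Z', h1', h2', h3'⟩
    have hZ : Z = Z' := P.rep_uniq u x _ _ h2 h2' (by omega)
    subst hZ
    refine P.lab_inj (P.vx u) e e' ?_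
    exact g1 Z (P.vx u) (P.vx x) _ _ (by omega) (P.rep_bd u x Z h2 (by omega)) h3 h3'
      (P.lab_inc _ _) (P.lab_inc _ _)
  · intro u e
    exact ⟨{P.lab (P.vx u) e}, by rw [Finset.card_singleton]; omega, P.rep_nb u e,
      Finset.mem_singleton_self _⟩
  · intro u e
    rw [dd_eq hT (Z := {P.lab (P.vx u) e}) (by rw [Finset.card_singleton]; omega) (P.rep_nb u e),
      Finset.card_singleton]
  · rintro u e x y ⟨Z, h1, h2, h3⟩ hdg hns
    rw [dd_eq hT h1 h2] at hdg
    have hKux : P.K u x = r ^ Z.card := P.rep_K _ _ _ h2 (by omega)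
    by_cases hn : near P u y
    · obtain ⟨Z', h1', h2'⟩ := hn
      have h3' : P.lab (P.vx u) e ∉ Z' := fun h => hns ⟨Z', h1', h2', h⟩
      have hd := g2 Z Z' (P.vx u) (P.vx x) (P.vx y) (P.lab (P.vx u) e) (by omega)
        (P.rep_bd u x Z h2 (by omega)) (P.rep_bd u y Z' h2' (by omega)) h3 (P.lab_inc _ _) h3'
      have h4 : P.rep x y (symmDiff Z Z') := P.rep_trans _ u _ _ _ (P.rep_symm _ _ _ h2) h2'
      have h5 : (symmDiff Z Z').card = Z.card + Z'.card := by
        rw [hd.symmDiff_eq_sup]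
        exact Finset.card_union_of_disjoint hd
      rw [P.rep_K _ _ _ h4 (by omega), hKux, P.rep_K _ _ _ h2' (by omega), h5, pow_add, sub_self,
        abs_zero]
      exact hκ0
    · have hu := hfar u y hn
      have hu0 := P.K_nonneg u y
      have hprod0 : 0 ≤ P.K u x * P.K u y := mul_nonneg (P.K_nonneg _ _) hu0
      have hprod : P.K u x * P.K u y ≤ κ := by
        have h4 : P.K u x ≤ 1 := by
          rw [hKux]
          exact pow_le_one₀ hr0.le hr1.le
        calc P.K u x * P.K u y ≤ 1 * P.K u y := by gcongr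
          _ = P.K u y := one_mul _
          _ ≤ κ := hu.le.trans hκt
      have hxy : P.K x y ≤ κ := by
        by_contra hcon
        push Not at hcon
        obtain ⟨Z'', h4, h5⟩ := P.K_rep _ _ (hκt.trans hcon.le)
        have h6 : P.rep u y (symmDiff Z Z'') := P.rep_trans _ x _ _ _ h2 h5
        have h7 : ¬ (symmDiff Z Z'').card ≤ t := fun h => hn ⟨_, h, h6⟩
        have h8 := card_symmDiff_le Z Z''
        have h9 : t - g ≤ Z''.card := by omega
        rw [P.rep_K _ _ _ h5 (by omega)] at hcon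
        exact absurd ((hle h9).trans hκ) (not_le.2 hcon)
      have hxy0 := P.K_nonneg x y
      rw [abs_le]
      constructor <;> linarith

end Pool.Agent.RHO.H33c
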